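import Pool.Agent.Helper89.OS.St1

/-! # Project OS (MP_2b6189_al), module LDV: the primes of `L` divide `n` -/

set_option autoImplicit false

namespace Pool.Agent.Helper73.OS

open Matrix ComplexConjugate Pool.Agent.Helper94.YF Pool.Agent.Helper94.YG Pool.Agent.Helper89.OS

theorem hLDV : StLDV := by
  intro hXD hIDP hF hD hInt hR I _ _ Z p hp hpL
  by_contra hpn
  obtain ⟨a, b, hI, ha, -⟩ := hIDP Z.L p Z.L_pos hp
  have ha1 : 1 ≤ a := ha hpL
  have hb : b * b = b := hI.idem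
  obtain ⟨f1, -, -, -, -, f6, -, -, f9, -, -⟩ := hF hD I Z.toCentreRep
  have h0 : ∀ i, ∃ M : ℤ, (M : ℂ) = (Z.n : ℂ) * Z.rho (s2 b) i Z.o := by
    intro i
    have h1 : IsIntegral ℤ ((Z.n : ℂ) * Z.rho (s2 b) i Z.o) :=
      hInt I Z.toCentreRep (s2 b) i (-1) (by rw [s2_00 b hb, s2_10 b]; ring)
    have h2 : ∀ σ : ℂ ≃+* ℂ, σ ((Z.n : ℂ) * Z.rho (s2 b) i Z.o) =
        (Z.n : ℂ) * Z.rho (s2 b) i Z.o := by
      intro σ
      rw [map_mul, s2_fixed Z.toCentreRep b hb σ i, map_natCast]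
    exact hR.1 _ h1 h2
  choose M hM using h0
  have hPL : p ^ a ∣ Z.L := by
    obtain ⟨L', hL', -, -⟩ := hI.ex
    exact ⟨L', hL'⟩
  have hcop : Nat.Coprime Z.n (p ^ a) :=
    Nat.Coprime.pow_right a (((Nat.Prime.coprime_iff_not_dvd hp).2 hpn).symm)
  obtain ⟨y, hy⟩ := desc_all hF hD hR Z (p ^ a) b hb hPL hI.ann 1 Z.n Z.n_pos hcop M (by
    intro i
    rw [hM i, one_mul])
  have hy1 : ∀ i, Z.rho (s2 b) i Z.o = (y i : ℂ) := by
    intro i
    rw [hy i]; simp
  -- norm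
  have hsq : ∑ i, y i ^ 2 = 1 := by
    have h1 := congrFun (congrFun (Z.unitary (s2 b)) Z.o) Z.o
    rw [Matrix.mul_apply, Matrix.one_apply_eq] at h1
    simp only [Matrix.conjTranspose_apply, hy1] at h1
    have h2 : ∀ i, star ((y i : ℂ)) * (y i : ℂ) = (((y i) ^ 2 : ℤ) : ℂ) := by
      intro i
      rw [show star ((y i : ℂ)) = (y i : ℂ) from by simp]
      push_cast; ring
    simp only [h2] at h1
    exact_mod_cast h1
  -- symmetry
  have hsym : ∀ j, Z.rho (s2 b) Z.o j = Z.rho (s2 b) j Z.o := by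
    intro j
    have e1 : Z.rho (s2 b) = Matrix.diagonal (Z.tw (-b)) * Z.rho (Lo b) *
        Matrix.diagonal (Z.tw (-b)) := by
      rw [s2, map_mul, map_mul, f1]
    rw [e1, Matrix.mul_diagonal, Matrix.diagonal_mul, Matrix.mul_diagonal, Matrix.diagonal_mul,
      f9 b Z.o j]
    ring
  have hkap : ∑ j, y j * (Z.kap j : ℤ) = 1 := by
    have h1 := Z.kap_inv (s2 b) Z.o
    rw [Z.kap_o] at h1
    simp only [hsym, hy1] at h1
    exact_mod_cast h1
  obtain ⟨k, hk1, hk2⟩ := hXD hF hD I Z.toCentreRep p a b hp ha1 hI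
  have hyk : y k ≠ 0 := by
    intro h
    apply hk1
    rw [hy1 k, h]; simp
  have hoth : ∀ i, i ≠ k → y i = 0 := by
    intro i hik
    by_contra hyi
    have h1 : y i ^ 2 + y k ^ 2 ≤ ∑ j, y j ^ 2 := by
      have h2 := Finset.sum_le_sum_of_subset_of_nonneg (f := fun j => y j ^ 2)
        (Finset.subset_univ ({i, k} : Finset I)) (fun j _ _ => sq_nonneg (y j))
      rwa [Finset.sum_pair hik] at h2
    have h3 : 1 ≤ y i ^ 2 := by
      have := pow_pos (abs_pos.2 hyi) 2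
      rw [sq_abs] at this
      omega
    have h4 : 1 ≤ y k ^ 2 := by
      have := pow_pos (abs_pos.2 hyk) 2
      rw [sq_abs] at this
      omega
    omega
  have hkk : y k * (Z.kap k : ℤ) = 1 := by
    rw [← hkap, Finset.sum_eq_single k]
    · intro j _ hj
      rw [hoth j hj, zero_mul]
    · intro h
      exact absurd (Finset.mem_univ k) h
  have hkne : (Z.kap k : ℂ) ≠ 0 := by
    intro h
    have h1 : Z.kap k = 0 := by exact_mod_cast h
    rw [h1] at hkk
    simp at hkk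
  have hU := Z.kap_inv (U b) k
  rw [f1] at hU
  have hU2 : Z.tw b k * (Z.kap k : ℂ) = Z.kap k := by
    rw [Finset.sum_eq_single k (fun j _ hj => by
      rw [Matrix.diagonal_apply_ne' _ hj, zero_mul])
      (fun h => absurd (Finset.mem_univ k) h), Matrix.diagonal_apply_eq] at hU
    exact hU
  have htw : Z.tw b k = 1 := by
    apply mul_right_cancel₀ hkne
    rw [hU2, one_mul]
  apply hk2
  rw [htw, one_pow]

end Pool.Agent.Helper73.OS
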